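import Pool.Agent.H578R2.ANN.PolyI

/-!
# Numbering the vertices of a board (labels with a larger bound)
-/

set_option autoImplicit false

namespace Pool.Agent.NPC.Q328.TH

open Pool.Agent.NPC Pool.Agent.NPC.ANN Pool.Agent.H820R2.SS

/-- Labels for the vertices of a board. -/
structure Enc {W : Type} (code : W → Lb) (K : ℕ) (okW : ARM → W → Bool) (okL : ARM → Lb → Bool) :
    Prop where
  inj : Function.Injective code
  ok_code : ∀ M v, okL M (code v) = okW M v
  surj : ∀ M z, z.1 < K → okL M z = true → ∃ v, code v = z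
  bound : ∀ M v, okW M v = true → (code v).1 < K ∧ (code v).2.1 < Bd M + 4 ∧
    (code v).2.2.1 < Bd M + 4 ∧ (code v).2.2.2 < Bd M + 4

/-- all labels -/
def vsG (K : ℕ) (okL : ARM → Lb → Bool) (M : ARM) : List Lb :=
  ((List.range K) ×ˢ ((List.range (Bd M + 4)) ×ˢ ((List.range (Bd M + 4)) ×ˢ (List.range (Bd M + 4))))).filter
    (okL M)

theorem vsG_nodup (K : ℕ) (okL : ARM → Lb → Bool) (M : ARM) : (vsG K okL M).Nodup := by
  unfold vsG
  apply List.Nodup.filter
  exact List.nodup_range.product (List.nodup_range.product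
    (List.nodup_range.product List.nodup_range))

variable {W : Type} {code : W → Lb} {K : ℕ} {okW : ARM → W → Bool} {okL : ARM → Lb → Bool}

theorem mem_vsG (H : Enc code K okW okL) {M : ARM} {z : Lb} :
    z ∈ vsG K okL M ↔ ∃ v, okW M v = true ∧ code v = z := by
  unfold vsG
  rw [List.mem_filter]
  constructor
  · rintro ⟨h1, h2⟩
    have h3 : z.1 < K := by
      obtain ⟨k, a, b, c⟩ := z
      simp only [List.mem_product, List.mem_range] at h1
      exact h1.1
    obtain ⟨v, rfl⟩ := H.surj M z h3 h2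
    exact ⟨v, by rwa [H.ok_code] at h2, rfl⟩
  · rintro ⟨v, hv, rfl⟩
    refine ⟨?_, by rw [H.ok_code]; exact hv⟩
    have h1 := H.bound M v hv
    generalize code v = z at h1
    obtain ⟨k, a, b, c⟩ := z
    simp only [List.mem_product, List.mem_range]
    exact h1

/-- the number of a vertex -/
def nuG (code : W → Lb) (K : ℕ) (okL : ARM → Lb → Bool) (M : ARM) (v : W) : ℕ :=
  (vsG K okL M).idxOf (code v)

theorem nuG_lt (H : Enc code K okW okL) {M : ARM} {v : W} (h : okW M v = true) :
    nuG code K okL M v < (vsG K okL M).length :=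
  List.idxOf_lt_length_iff.2 ((mem_vsG H).2 ⟨v, h, rfl⟩)

theorem nuG_get (H : Enc code K okW okL) {M : ARM} {v : W} (h : okW M v = true) (d : Lb) :
    (vsG K okL M).getD (nuG code K okL M v) d = code v := by
  rw [List.getD_eq_getElem _ _ (nuG_lt H h)]
  exact List.getElem_idxOf (nuG_lt H h)

theorem nuG_inj (H : Enc code K okW okL) {M : ARM} {u v : W} (hu : okW M u = true)
    (hv : okW M v = true) (h : nuG code K okL M u = nuG code K okL M v) : u = v := by
  apply H.inj
  rw [← nuG_get H hu (0, 0, 0, 0), ← nuG_get H hv (0, 0, 0, 0), h]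

theorem nuG_surj (H : Enc code K okW okL) {M : ARM} {x : ℕ} (h : x < (vsG K okL M).length) :
    ∃ v, okW M v = true ∧ nuG code K okL M v = x := by
  obtain ⟨v, hv, hc⟩ := (mem_vsG H).1 (List.getElem_mem h)
  refine ⟨v, hv, ?_⟩
  unfold nuG
  rw [hc]
  exact (vsG_nodup K okL M).idxOf_getElem x h

theorem mem_edgG (H : Enc code K okW okL) {M : ARM} {t : Lb → Lb → Bool} {x y : ℕ} :
    (x, y) ∈ edg (vsG K okL M) t ↔
    ∃ u v, okW M u = true ∧ okW M v = true ∧ t (code u) (code v) = true ∧
      nuG code K okL M u = x ∧ nuG code K okL M v = y := by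
  unfold edg
  rw [List.mem_filter, List.mem_product, List.mem_range, List.mem_range]
  constructor
  · rintro ⟨⟨h1, h2⟩, h3⟩
    obtain ⟨u, hu, rfl⟩ := nuG_surj H h1
    obtain ⟨v, hv, rfl⟩ := nuG_surj H h2
    refine ⟨u, v, hu, hv, ?_, rfl, rfl⟩
    simpa only [nuG_get H hu, nuG_get H hv] using h3
  · rintro ⟨u, v, hu, hv, h, rfl, rfl⟩
    refine ⟨⟨nuG_lt H hu, nuG_lt H hv⟩, ?_⟩
    simpa only [nuG_get H hu, nuG_get H hv] using h

/-- A list of values for the vertices. -/
theorem map_getD (H : Enc code K okW okL) {M : ARM} {β : Type} (pl : Lb → β) (d : β) {v : W}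
    (hv : okW M v = true) : ((vsG K okL M).map pl).getD (nuG code K okL M v) d = pl (code v) := by
  rw [List.getD_eq_getElem _ _ (by rw [List.length_map]; exact nuG_lt H hv), List.getElem_map]
  have h2 := nuG_get H hv (0, 0, 0, 0)
  rw [List.getD_eq_getElem _ _ (nuG_lt H hv)] at h2
  rw [h2]

theorem map_getD_out (H : Enc code K okW okL) {M : ARM} {β : Type} (pl : Lb → β) (d : β) {x : ℕ}
    (hx : ∀ v, okW M v = true → nuG code K okL M v ≠ x) :
    ((vsG K okL M).map pl).getD x d = d := by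
  rw [List.getD_eq_default]
  rw [List.length_map]
  by_contra hlt
  push Not at hlt
  obtain ⟨v, hv, hv'⟩ := nuG_surj H hlt
  exact hx v hv hv'

/-! ### Polynomial time -/

theorem poly_vsG (K : ℕ) {okL : ARM → Lb → Bool}
    (h : NPC.Poly (fun p : ARM × Lb => okL p.1 p.2)) : NPC.Poly (fun M : ARM => vsG K okL M) := by
  have h1 : NPC.Poly (fun M : ARM => List.range (Bd M + 4)) := (uPoly_Bd.add (UPoly.const 4)).range
  have h2 : NPC.Poly (fun M : ARM => ((List.range K) ×ˢ ((List.range (Bd M + 4)) ×ˢ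
      ((List.range (Bd M + 4)) ×ˢ (List.range (Bd M + 4)))) : List Lb)) := by
    fun_prop
  unfold vsG
  exact NPC.Poly.filter h2 h

theorem poly_edgG {K : ℕ} {okL : ARM → Lb → Bool}
    (h : NPC.Poly (fun p : ARM × Lb => okL p.1 p.2)) {t : ARM → Lb → Lb → Bool}
    (ht : NPC.Poly (fun p : ARM × (Lb × Lb) => t p.1 p.2.1 p.2.2)) :
    NPC.Poly (fun M : ARM => edg (vsG K okL M) (t M)) := by
  have h0 := poly_vsG K h
  have h1 : NPC.Poly (fun M : ARM => List.range (vsG K okL M).length) := (UPoly.length h0).range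
  have h2 : NPC.Poly (fun M : ARM => ((List.range (vsG K okL M).length) ×ˢ
      (List.range (vsG K okL M).length) : List (ℕ × ℕ))) := by
    fun_prop
  unfold edg
  refine NPC.Poly.filter h2 ?_
  have h3 : NPC.Poly (fun p : ARM × (ℕ × ℕ) => vsG K okL p.1) :=
    h0.comp (NPC.Poly.fst NPC.Poly.id)
  exact ht.comp (f := fun p : ARM × (ℕ × ℕ) => (p.1, ((vsG K okL p.1).getD p.2.1 (0, 0, 0, 0),
    (vsG K okL p.1).getD p.2.2 (0, 0, 0, 0)))) (by fun_prop)

end Pool.Agent.NPC.Q328.TH
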